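import Pool.Agent.Lib.MP_688fd0_co.SQ3.Iface

/-!
FACTOR2: one or two tours whose volumes are units give a listing sequence.
-/

set_option autoImplicit false

namespace Pool.Agent.Lib.MP_688fd0_co.SQ3.H43

open Function Pool.Agent.Lib.MP_688fd0_co.OSF

/-! ### Walks -/

/-- A walk through all vertices (the start vertex is not counted). -/
theorem lst_of_walk {G : Type*} [Group G] (A : Set G) (n : ℕ) (v : ℕ → G)
    (he : ∀ k < n, (v k)⁻¹ * v (k + 1) ∈ A) (hi : ∀ i < n, ∀ j < n, v (i + 1) = v (j + 1) → i = j)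
    (hs : ∀ g, ∃ k < n, v (k + 1) = g) : Lst A := by
  have hb : Bijective (fun i : Fin n => v ((i : ℕ) + 1)) := by
    constructor
    · intro i j hij
      exact Fin.ext (hi i i.2 j j.2 hij)
    · intro g
      obtain ⟨k, hk, h⟩ := hs g
      exact ⟨⟨k, hk⟩, h⟩
  have hcard : Nat.card G = n := by
    rw [← Nat.card_congr (Equiv.ofBijective _ hb)]
    simp
  set a : Fin (Nat.card G) → G := fun i => (v (i : ℕ))⁻¹ * v ((i : ℕ) + 1) with ha
  have key : ∀ k ≤ Nat.card G, ((List.ofFn a).take k).prod = (v 0)⁻¹ * v k := by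
    intro k
    induction k with
    | zero => intro _; simp
    | succ k ih =>
      intro hk
      have hk' : k < (List.ofFn a).length := by rw [List.length_ofFn]; omega
      rw [List.prod_take_succ _ _ hk', ih (by omega)]
      simp only [List.getElem_ofFn, ha]
      rw [mul_assoc, mul_inv_cancel_left]
  refine ⟨a, fun i => he _ (hcard ▸ i.2), ?_⟩
  intro i j hij
  simp only at hij
  rw [key _ (by omega), key _ (by omega)] at hij
  exact Fin.ext (hi _ (hcard ▸ i.2) _ (hcard ▸ j.2) (mul_left_cancel hij))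

section orbit

variable {X : Type*}

/-- The iterates `1, …, minimalPeriod` are different. -/
theorem iter_inj (f : X → X) (x : X) (i j : ℕ) (hi : i < minimalPeriod f x) (hj : j < minimalPeriod f x)
    (h : f^[i + 1] x = f^[j + 1] x) : i = j := by
  by_contra hne
  rcases Nat.lt_or_gt_of_ne hne with hlt | hlt
  · rcases Nat.lt_or_ge (j + 1) (minimalPeriod f x) with h3 | h3
    · have := iterate_injOn_Iio_minimalPeriod (f := f) (x := x)
        (Set.mem_Iio.2 (lt_trans (Nat.succ_lt_succ hlt) h3)) (Set.mem_Iio.2 h3) h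
      omega
    · have e : j + 1 = minimalPeriod f x := by omega
      rw [e, iterate_minimalPeriod] at h
      have := iterate_injOn_Iio_minimalPeriod (f := f) (x := x)
        (Set.mem_Iio.2 (show i + 1 < minimalPeriod f x by omega))
        (Set.mem_Iio.2 (show 0 < minimalPeriod f x by omega)) h
      omega
  · rcases Nat.lt_or_ge (i + 1) (minimalPeriod f x) with h3 | h3
    · have := iterate_injOn_Iio_minimalPeriod (f := f) (x := x)
        (Set.mem_Iio.2 h3) (Set.mem_Iio.2 (lt_trans (Nat.succ_lt_succ hlt) h3)) h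
      omega
    · have e : i + 1 = minimalPeriod f x := by omega
      rw [e, iterate_minimalPeriod] at h
      have := iterate_injOn_Iio_minimalPeriod (f := f) (x := x)
        (Set.mem_Iio.2 (show 0 < minimalPeriod f x by omega))
        (Set.mem_Iio.2 (show j + 1 < minimalPeriod f x by omega)) h
      omega

/-- Every element of the orbit is one of the iterates `1, …, minimalPeriod`. -/
theorem iter_surj (f : X → X) (x y : X) (hx : x ∈ periodicPts f) (h : ∃ k, f^[k] x = y) :
    ∃ k < minimalPeriod f x, f^[k + 1] x = y := by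
  have hp : 0 < minimalPeriod f x := minimalPeriod_pos_iff_mem_periodicPts.2 hx
  obtain ⟨k, hk⟩ := h
  rcases Nat.eq_zero_or_pos (k % minimalPeriod f x) with h0 | h0
  · refine ⟨minimalPeriod f x - 1, by omega, ?_⟩
    rw [Nat.sub_add_cancel hp, iterate_minimalPeriod, ← hk, ← iterate_mod_minimalPeriod_eq, h0]
    rfl
  · refine ⟨k % minimalPeriod f x - 1, ?_, ?_⟩
    · have := Nat.mod_lt k hp
      omega
    · rw [Nat.sub_add_cancel h0, iterate_mod_minimalPeriod_eq, hk]

/-- The sum over one orbit. -/
theorem sum_orbit' {M : Type*} [AddCommMonoid M] [Fintype X] (f : X → X) (x : X) (cl : X → Bool)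
    (hx : x ∈ periodicPts f) (h : ∀ y, cl y = cl x → ∃ k, f^[k] x = y) (hc : ∀ y, cl (f y) = cl y) (F : X → M) :
    ∑ i ∈ Finset.range (minimalPeriod f x), F (f^[i] x) = ∑ y, if cl y = cl x then F y else 0 := by
  have hp : 0 < minimalPeriod f x := minimalPeriod_pos_iff_mem_periodicPts.2 hx
  have hck : ∀ k, cl (f^[k] x) = cl x := by
    intro k
    induction k with
    | zero => rfl
    | succ k ih => rw [iterate_succ_apply', hc, ih]
  rw [← Finset.sum_filter]
  refine Finset.sum_bij (fun i _ => f^[i] x) (fun i _ => ?_) ?_ ?_ (fun _ _ => rfl)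
  · rw [Finset.mem_filter]
    exact ⟨Finset.mem_univ _, hck i⟩
  · intro i hi j hj hij
    exact iterate_injOn_Iio_minimalPeriod (Set.mem_Iio.2 (Finset.mem_range.1 hi))
      (Set.mem_Iio.2 (Finset.mem_range.1 hj)) hij
  · intro y hy
    obtain ⟨k, hk⟩ := h y (Finset.mem_filter.1 hy).2
    exact ⟨k % minimalPeriod f x, Finset.mem_range.2 (Nat.mod_lt _ hp), by
      rw [iterate_mod_minimalPeriod_eq, hk]⟩

end orbit

/-- One or two orbits of `g ↦ g * l g` give a listing sequence. -/
theorem lst_of_orbits {G : Type*} [Group G] [Finite G] (A : Set G) (hA : Subgroup.closure A = ⊤) (l : G → G)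
    (hl : ∀ g, l g ∈ A) (cl : G → Bool) (hc : ∀ g, cl (g * l g) = cl g)
    (h : ∀ g g', cl g' = cl g → ∃ k, (fun g => g * l g)^[k] g = g') : Lst A := by
  set f : G → G := fun g => g * l g with hf
  have hper : ∀ g, g ∈ periodicPts f := by
    intro g
    obtain ⟨k, hk⟩ := h (f g) g (hc g).symm
    refine ⟨k + 1, Nat.succ_pos _, ?_⟩
    show f^[k + 1] g = g
    rw [iterate_succ_apply, hk]
  have hck : ∀ k g, cl (f^[k] g) = cl g := by
    intro k
    induction k with
    | zero => intro g; rfl
    | succ k ih => intro g; rw [iterate_succ_apply', ← ih g]; exact hc _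
  have hedge : ∀ g, g⁻¹ * f g ∈ A := by
    intro g
    rw [hf]
    simp only [inv_mul_cancel_left]
    exact hl g
  by_cases h2 : ∀ g, cl g = cl 1
  · refine lst_of_walk A (minimalPeriod f 1) (fun k => f^[k] 1) ?_ ?_ ?_
    · intro k _
      simp only [iterate_succ_apply']
      exact hedge _
    · intro i hi j hj hij
      exact iter_inj f 1 i j hi hj hij
    · intro g
      exact iter_surj f 1 g (hper 1) (h 1 g (h2 g))
  · -- an edge between the two cycles
    have h3 : ∃ g, cl g = cl 1 ∧ ∃ a ∈ A, cl (g * a) ≠ cl 1 := by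
      by_contra hno
      push Not at hno
      apply h2
      intro g
      have hg : g ∈ Submonoid.closure A := by
        have e : g ∈ Subgroup.closure A := hA ▸ Subgroup.mem_top g
        rw [← Subgroup.mem_toSubmonoid, Subgroup.closure_toSubmonoid_of_finite] at e
        exact e
      refine Submonoid.closure_induction_right (motive := fun g _ => cl g = cl 1) rfl ?_ hg
      intro x _ y hy hx
      exact hno x hx y hy
    obtain ⟨g₀, hg₀, a₀, ha₀, hne⟩ := h3
    set h₀ := g₀ * a₀ with hh₀
    set P := minimalPeriod f g₀ with hP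
    set P' := minimalPeriod f h₀ with hP'
    have hPpos : 0 < P := minimalPeriod_pos_iff_mem_periodicPts.2 (hper g₀)
    refine lst_of_walk A (P + P') (fun k => if k ≤ P then f^[k] g₀ else f^[k - (P + 1)] h₀) ?_ ?_ ?_
    · intro k _
      rcases Nat.lt_trichotomy k P with hk | hk | hk
      · simp only [if_pos hk.le, if_pos (show k + 1 ≤ P by omega), iterate_succ_apply']
        exact hedge _
      · subst hk
        simp only [if_pos le_rfl, if_neg (show ¬ P + 1 ≤ P by omega), Nat.sub_self]
        rw [hP, iterate_minimalPeriod]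
        show g₀⁻¹ * h₀ ∈ A
        rw [hh₀, inv_mul_cancel_left]
        exact ha₀
      · simp only [if_neg (show ¬ k ≤ P by omega), if_neg (show ¬ k + 1 ≤ P by omega)]
        rw [show k + 1 - (P + 1) = (k - (P + 1)) + 1 by omega, iterate_succ_apply']
        exact hedge _
    · intro i hi j hj hij
      have hh : ∀ k, cl (f^[k] h₀) ≠ cl 1 := fun k => by rw [hck]; exact hne
      have hg : ∀ k, cl (f^[k] g₀) = cl 1 := fun k => by rw [hck]; exact hg₀
      rcases Nat.lt_or_ge i P with hi1 | hi1 <;> rcases Nat.lt_or_ge j P with hj1 | hj1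
      · simp only [if_pos (show i + 1 ≤ P by omega), if_pos (show j + 1 ≤ P by omega)] at hij
        exact iter_inj f g₀ i j hi1 hj1 hij
      · simp only [if_pos (show i + 1 ≤ P by omega), if_neg (show ¬ j + 1 ≤ P by omega)] at hij
        exact absurd (hij ▸ hg _) (hh _)
      · simp only [if_neg (show ¬ i + 1 ≤ P by omega), if_pos (show j + 1 ≤ P by omega)] at hij
        exact absurd (hij ▸ hg _) (hh _)
      · simp only [if_neg (show ¬ i + 1 ≤ P by omega), if_neg (show ¬ j + 1 ≤ P by omega)] at hij
        have := iterate_injOn_Iio_minimalPeriod (f := f) (x := h₀)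
          (Set.mem_Iio.2 (show i + 1 - (P + 1) < minimalPeriod f h₀ by omega))
          (Set.mem_Iio.2 (show j + 1 - (P + 1) < minimalPeriod f h₀ by omega)) hij
        omega
    · intro g
      by_cases hg : cl g = cl 1
      · obtain ⟨k, hk, e⟩ := iter_surj f g₀ g (hper g₀) (h g₀ g (by rw [hg, hg₀]))
        refine ⟨k, by omega, ?_⟩
        simp only [if_pos (show k + 1 ≤ P by omega)]
        exact e
      · have h4 : cl g = cl h₀ := by
          cases h5 : cl g <;> cases h6 : cl h₀ <;> cases h7 : cl 1 <;> simp_all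
        obtain ⟨k, hk⟩ := h h₀ g h4
        have hP0 : 0 < P' := minimalPeriod_pos_iff_mem_periodicPts.2 (hper h₀)
        refine ⟨P + k % P', by have := Nat.mod_lt k hP0; omega, ?_⟩
        simp only [if_neg (show ¬ P + k % P' + 1 ≤ P by omega)]
        rw [show P + k % P' + 1 - (P + 1) = k % P' by omega, hP', iterate_mod_minimalPeriod_eq, hk]

theorem factor2 : FactorS := by
  intro G _ _ Q _ _ m π s z chi ν hm0 hs hz hm hker hchi hν A lab cl hA hlab _ hcl hcyc hunit
  haveI : NeZero m := ⟨hm0.ne'⟩
  -- powers of `z`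
  have hmod : ∀ n : ℕ, z ^ (n % m) = z ^ n := by
    intro n
    rw [← hm, pow_mod_orderOf]
  have zval : ∀ n : ℕ, z ^ ((n : ZMod m)).val = z ^ n := by
    intro n
    rw [ZMod.val_natCast, hmod]
  have zadd : ∀ a b : ZMod m, z ^ (a + b).val = z ^ a.val * z ^ b.val := by
    intro a b
    rw [ZMod.val_add, ← pow_add, hmod]
  have zmul : ∀ a b : ZMod m, z ^ (a * b).val = (z ^ a.val) ^ b.val := by
    intro a b
    rw [ZMod.val_mul, ← pow_mul, hmod]
  set nxt : Q → Q := fun x => x * π (lab x) with hnxt
  set f : G → G := fun g => g * lab (π g) with hf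
  have hπf : ∀ g, π (f g) = nxt (π g) := by
    intro g
    simp only [hf, hnxt, map_mul]
  have hπfk : ∀ k g, π (f^[k] g) = nxt^[k] (π g) := by
    intro k
    induction k with
    | zero => intro g; rfl
    | succ k ih =>
      intro g
      rw [iterate_succ_apply', iterate_succ_apply', hπf, ih]
  have hfmul : ∀ h g, π h = 1 → f (h * g) = h * f g := by
    intro h g hh
    simp only [hf, map_mul, hh, one_mul, mul_assoc]
  have hfkmul : ∀ k h g, π h = 1 → f^[k] (h * g) = h * f^[k] g := by
    intro k
    induction k with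
    | zero => intro h g _; rfl
    | succ k ih =>
      intro h g hh
      rw [iterate_succ_apply', iterate_succ_apply', ih h g hh, hfmul _ _ hh]
  -- the walk
  have walk : ∀ i x, f^[i] (s x) =
      z ^ (∑ j ∈ Finset.range i, chi (nxt^[j] x) * ν (lab (nxt^[j] x))).val * s (nxt^[i] x) := by
    intro i
    induction i with
    | zero =>
      intro x
      simp
    | succ i ih =>
      intro x
      have hπi : π (f^[i] (s x)) = nxt^[i] x := by rw [hπfk, hs]
      rw [iterate_succ_apply', iterate_succ_apply', Finset.sum_range_succ, zadd, zmul]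
      set y := nxt^[i] x with hy
      have e1 : f (f^[i] (s x)) = f^[i] (s x) * lab y := by
        simp only [hf]
        rw [← hf, hπi]
      rw [e1]
      conv_lhs => rw [hν (lab y), ih]
      show _ = z ^ (∑ j ∈ Finset.range i, chi (nxt^[j] x) * ν (lab (nxt^[j] x))).val *
        (z ^ (chi y).val) ^ (ν (lab y)).val * s (y * π (lab y))
      rw [map_mul, ← hchi]
      have e2 : (s y * z * (s y)⁻¹) ^ (ν (lab y)).val =
          s y * z ^ (ν (lab y)).val * (s y)⁻¹ := by
        rw [conj_pow]
      rw [e2, ← hy]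
      group
  have hnp : ∀ x, x ∈ periodicPts nxt := by
    intro x
    obtain ⟨k, hk⟩ := hcyc (nxt x) x (hcl x)
    refine ⟨k + 1, Nat.succ_pos _, ?_⟩
    show nxt^[k + 1] x = x
    rw [iterate_succ_apply, hk]
  set vol : Bool → ZMod m := fun γ => ∑ x, if cl x = γ then chi x * ν (lab x) else 0 with hvol
  have hround : ∀ x, f^[minimalPeriod nxt x] (s x) = z ^ (vol (cl x)).val * s x := by
    intro x
    rw [walk, sum_orbit' nxt x cl (hnp x) (fun y hy => hcyc x y hy.symm) hcl
      (fun x => chi x * ν (lab x)), iterate_minimalPeriod]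
  have hzv : ∀ n j : ℕ, π ((z ^ n) ^ j) = 1 := by
    intro n j
    simp [hz]
  have hdec : ∀ g, ∃ n : ℕ, g = z ^ n * s (π g) := fun g => ⟨_, hν g⟩
  have hround' : ∀ g, f^[minimalPeriod nxt (π g)] g = z ^ (vol (cl (π g))).val * g := by
    intro g
    obtain ⟨n, hn⟩ := hdec g
    have h1 : f^[minimalPeriod nxt (π g)] (z ^ n * s (π g)) = z ^ n * f^[minimalPeriod nxt (π g)] (s (π g)) :=
      hfkmul _ _ _ (by simp [hz])
    rw [← hn] at h1
    rw [h1, hround]
    conv_rhs => rw [hn]
    rw [← mul_assoc, ← mul_assoc, ← pow_add, ← pow_add, Nat.add_comm, hn]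
    simp [hz, hs]
  have hrounds : ∀ g, ∀ j : ℕ, f^[minimalPeriod nxt (π g) * j] g = (z ^ (vol (cl (π g))).val) ^ j * g := by
    intro g j
    induction j with
    | zero => simp
    | succ j ih =>
      rw [Nat.mul_succ, Nat.add_comm, iterate_add_apply, ih]
      rw [hfkmul _ _ _ (hzv _ _), hround', pow_succ, mul_assoc]
  have horb : ∀ g g', cl (π g') = cl (π g) → ∃ k, f^[k] g = g' := by
    intro g g' hgg
    obtain ⟨t, ht⟩ := hcyc (π g) (π g') hgg.symm
    have h1 : π (g' * (f^[t] g)⁻¹) = 1 := by
      rw [map_mul, map_inv, hπfk, ht, mul_inv_cancel]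
    have h2 : ∃ n : ℕ, z ^ n = g' * (f^[t] g)⁻¹ := by
      have h3 := hker _ h1
      rw [← mem_powers_iff_mem_zpowers] at h3
      exact (Submonoid.mem_powers_iff _ _).1 h3
    obtain ⟨n, hn⟩ := h2
    have hv : IsUnit (vol (cl (π g))) := hunit _ ⟨_, rfl⟩
    obtain ⟨w, hw⟩ := hv.exists_left_inv
    have h4 : (z ^ (vol (cl (π g))).val) ^ ((n : ZMod m) * w).val = z ^ n := by
      rw [← zmul]
      have : vol (cl (π g)) * ((n : ZMod m) * w) = (n : ZMod m) := by
        calc vol (cl (π g)) * ((n : ZMod m) * w) = (n : ZMod m) * (w * vol (cl (π g))) := by ring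
          _ = n := by rw [hw, mul_one]
      rw [this, zval]
    refine ⟨t + minimalPeriod nxt (π g) * ((n : ZMod m) * w).val, ?_⟩
    rw [iterate_add_apply, hrounds, h4, hn, hfkmul _ _ _ h1]
    rw [mul_assoc, inv_mul_cancel, mul_one]
  exact lst_of_orbits A hA (fun g => lab (π g)) (fun g => hlab _) (fun g => cl (π g))
    (fun g => by simp only [map_mul]; exact hcl _) horb

end Pool.Agent.Lib.MP_688fd0_co.SQ3.H43
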